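import Pool.Agent.Helper35.MS.StD

/-! MS MODULE MPX (project MS, MP_925021_gt): no first zero of the test function. -/

set_option autoImplicit false

namespace Helper36.MS

open Helper35.MS Helper35.PI Helper35.PI2 Helper32.CL
open scoped ContDiff Manifold Topology ENNReal BigOperators
open MeasureTheory Set Filter

theorem hMPX (hC4J : StC4J) (hAIM : StAIM) (hMP : StMP) : StMPX := by
  intro N M _ _ _ J F hF hsph ε p₀ hε0 hε t₀ ht₀ ht4 hz hcon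
  obtain ⟨L, u, θ, hG, hθ0, hθc, -, hev⟩ := hC4J 2 N M J F hF p₀ t₀ ht₀
  have hJ : ∀ᶠ z in 𝓝 ((0 : EE 2), t₀), z.2 ∈ J :=
    continuousAt_snd.eventually (hF.op.mem_nhds ht₀)
  have hs : ∀ᶠ z in 𝓝 ((0 : EE 2), t₀), ‖grf (F p₀ t₀) L u z.2 z.1‖ ^ 2 = 1 - 4 * z.2 := by
    filter_upwards [hev, hJ] with z hz1 hz2
    rw [← hz1.1]
    exact hsph (θ z) z.2 hz2
  obtain ⟨Φ, hΦ⟩ : ∃ Φ : EE 2 × ℝ → ℝ, Φ = (fun z =>
      (1 - 4 * z.2) * (2 * Xf (F p₀ t₀) L u z - Yf (F p₀ t₀) L u z) / 4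
      - fm0 ((1 - 4 * z.2) * Yf (F p₀ t₀) L u z / 4 - 1)
      + gm0 ((1 - 4 * z.2) * Yf (F p₀ t₀) L u z / 4 - 1) *
        Real.sqrt ((1 - 4 * z.2) ^ 2 * (Zf (F p₀ t₀) L u z - Yf (F p₀ t₀) L u z ^ 2 / 2) / 8
          + ε ^ 2)) := ⟨_, rfl⟩
  obtain ⟨hc, hneg⟩ := hAIM N (F p₀ t₀) L u t₀ ε hG ht4 hε0 hε hs Φ hΦ
  have heq : ∀ᶠ z in 𝓝 ((0 : EE 2), t₀), PhF ε F (θ z) z.2 = Φ z := by
    filter_upwards [hev] with z hz1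
    obtain ⟨-, e1, e2, e3⟩ := hz1
    rw [hΦ]
    simp only [PhF, sS, xS, vS, Xf, Yf, Zf]
    rw [e1, e2, e3]
  have h0 : Φ (0, t₀) = 0 := by
    have h1 := heq.self_of_nhds
    rw [hθ0] at h1
    rw [← h1]
    exact hz
  have hten : Tendsto (fun z : EE 2 × ℝ => (θ z, z.2)) (𝓝 (0, t₀)) (𝓝 (p₀, t₀)) := by
    have h1 := hθc.prodMk (continuousAt_snd (p := ((0 : EE 2), t₀)))
    have h2 : Tendsto (fun z : EE 2 × ℝ => (θ z, z.2)) (𝓝 (0, t₀)) (𝓝 (θ (0, t₀), t₀)) := h1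
    rwa [hθ0] at h2
  have hle : ∀ᶠ z in 𝓝 ((0 : EE 2), t₀), z.2 ≤ t₀ → Φ z ≤ Φ (0, t₀) := by
    filter_upwards [hten.eventually hcon, heq] with z hz1 hz2 hz3
    rw [h0, ← hz2]
    exact hz1 hz3
  exact absurd (hMP 2 0 t₀ Φ hc hle).2 (not_le.2 (hneg h0))

end Helper36.MS
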